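import Pool.Agent.H689R2.Nine

/-!
# A prime-representing polynomial in nine unknowns (MP_e935e7_lc, question Q1)

The polynomial is `vP t g v k h l x y m = (t + 2) * (1 - M ^ 2)`, where `M` combines, in the style of
Matiyasevich and Robinson, three perfect squares and one strict inequality with one extra unknown
`m`.  With `p = t + 2`, `F = p (g + 1) - 1`, `n = 64 p ^ 2 F`, the numbers `V`, `K`, `C` are forced to
be the Pell numbers `V = y_{p+2}(n)`, `K = y_{n-p+3}(V)`, `C = y_{n+1}(V+1)`, and the distance of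
`C / K` to the nearest integer encodes `1 / (8 n ^ 2 (p - 1)!)`, so that the inequality says that
`F = (p - 1)!`; then `p` divides `(p - 1)! + 1`, which is Wilson's criterion.
-/

set_option autoImplicit false

namespace Pool.Agent.Results.MP_e935e7_lc.NineUnknowns

open MvPolynomial Pool.Agent.H689R2

/-- The set of values of the integer polynomial `f` at vectors of natural numbers
`ℕ = {0, 1, 2, …}`. -/
def values {n : ℕ} (f : MvPolynomial (Fin n) ℤ) : Set ℤ :=
  {m | ∃ x : Fin n → ℕ, eval (fun i => (x i : ℤ)) f = m}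

/-- `f` is prime-representing: its positive values on `ℕ^n` are exactly the primes. -/
def PrimeRepresenting {n : ℕ} (f : MvPolynomial (Fin n) ℤ) : Prop :=
  values f ∩ {m : ℤ | 0 < m} = {m : ℤ | ∃ p : ℕ, p.Prime ∧ m = p}

/-- The numbers of unknowns of prime-representing polynomials. -/
def unknowns : Set ℕ := {n | ∃ f : MvPolynomial (Fin n) ℤ, PrimeRepresenting f}

/-- `n_min`, the least number of unknowns of a prime-representing polynomial. -/
noncomputable def nMin : ℕ := sInf unknowns

/-- The polynomial in nine unknowns. -/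
noncomputable def primePoly : MvPolynomial (Fin 9) ℤ :=
  vP (X 0) (X 1) (X 2) (X 3) (X 4) (X 5) (X 6) (X 7) (X 8)

theorem eval_primePoly (a : Fin 9 → ℤ) :
    eval a primePoly = vP (a 0) (a 1) (a 2) (a 3) (a 4) (a 5) (a 6) (a 7) (a 8) := by
  unfold primePoly
  rw [vP_map (eval a)]
  simp only [eval_X]

theorem primeRepresenting_primePoly : PrimeRepresenting primePoly := by
  ext m
  constructor
  · rintro ⟨⟨a, ha⟩, hm⟩
    have hm' : 0 < m := hm
    rw [eval_primePoly] at ha
    unfold vP at ha
    obtain ⟨M, hM⟩ : ∃ M, M = vM (a 0 : ℤ) (a 1) (a 2) (a 3) (a 4) (a 5) (a 6) (a 7) (a 8) :=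
      ⟨_, rfl⟩
    rw [← hM] at ha
    have h0 : M = 0 := by
      by_contra hne
      have h1 : 1 ≤ M ^ 2 := by
        have h2 : 0 < M ^ 2 := by positivity
        omega
      have h3 : ((a 0 : ℤ) + 2) * (1 - M ^ 2) ≤ 0 :=
        mul_nonpos_of_nonneg_of_nonpos (by positivity) (by linarith)
      linarith
    rw [hM] at h0
    refine ⟨a 0 + 2, nine_sound h0, ?_⟩
    rw [← hM] at h0
    rw [← ha, h0]
    push_cast
    ring
  · rintro ⟨p, hp, rfl⟩
    obtain ⟨t, rfl⟩ : ∃ t, p = t + 2 := ⟨p - 2, by have := hp.two_le; omega⟩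
    obtain ⟨g, v, k, h, l, x, y, m, hM⟩ := nine_complete hp
    refine ⟨⟨![t, g, v, k, h, l, x, y, m], ?_⟩, ?_⟩
    · rw [eval_primePoly]
      change vP (t : ℤ) g v k h l x y m = _
      unfold vP
      rw [hM]
      push_cast
      ring
    · have : (0 : ℤ) < ((t + 2 : ℕ) : ℤ) := by exact_mod_cast hp.pos
      exact this

/-- **Main result.** There is a prime-representing polynomial in `9` unknowns; so `n_min ≤ 9`, and
`n_min = 10` is false. -/
theorem result :
    (∃ f : MvPolynomial (Fin 9) ℤ, PrimeRepresenting f) ∧ nMin ≤ 9 ∧ nMin ≠ 10 := by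
  have h9 : nMin ≤ 9 := Nat.sInf_le ⟨primePoly, primeRepresenting_primePoly⟩
  exact ⟨⟨primePoly, primeRepresenting_primePoly⟩, h9, by omega⟩

end Pool.Agent.Results.MP_e935e7_lc.NineUnknowns
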